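import Pool.Agent.TH683.CP.Defs

/-!
# Alternating polynomial time with a variable number of alternations, relative to an oracle

(Continues `Pool.Agent.H620R2.Gauge.Defs` and `Pool.Agent.TH683.CP.Defs`.)
-/

set_option autoImplicit false

namespace Pool.Agent.TH683.AL

open Pool.Agent.NPC Pool.Agent.H620R2.Gauge Pool.Agent.TH683.CP

/-- `k` alternating quantifiers over the strings of length at most `m`, the first one existential
if the bit is `true` and universal if it is `false`, in front of the property `P` of the list of
all chosen strings (the last one comes first in the list, the strings of `ws` come last). -/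
def Alt (m : ℕ) (P : List (List Bool) → Prop) : ℕ → Bool → List (List Bool) → Prop
  | 0, _, ws => P ws
  | k + 1, true, ws => ∃ w : List Bool, w.length ≤ m ∧ Alt m P k false (w :: ws)
  | k + 1, false, ws => ∀ w : List Bool, w.length ≤ m → Alt m P k true (w :: ws)

/-- The algorithm `V` accepts the pair of the list of the chosen strings and of `x`. -/
def Acc (V : List Bool → List Bool) (x : List Bool) (ws : List (List Bool)) : Prop :=
  V (pairBits (bits ws) x) = [true]

/-- The language `L` is decided in polynomial time with `k(|x|)` alternations relative to `A`:
`x` is in `L` if and only if a polynomial-time algorithm with oracle `A` accepts, with `k(|x|)`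
alternating quantifiers over strings of length at most `p(|x|)` in front. The function `k` is
arbitrary. -/
def IsAlt (A : Oracle) (k : ℕ → ℕ) (L : Set (List Bool)) : Prop :=
  ∃ (V : List Bool → List Bool) (p : Polynomial ℕ), IsFP A V ∧ ∀ x, x ∈ L ↔
    Alt (p.eval x.length) (Acc V x) (k x.length) true []

/-- The same with a majority quantifier over the strings `w` of length `r(|x|)` before the
alternating ones, and with polynomial advice `h(|x|)`. -/
def IsMajAltPoly (A : Oracle) (k : ℕ → ℕ) (L : Set (List Bool)) : Prop :=
  ∃ (V : List Bool → List Bool) (p r q : Polynomial ℕ) (h : ℕ → List Bool), IsFP A V ∧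
    (∀ n, (h n).length ≤ q.eval n) ∧ ∀ x, x ∈ L ↔ (2 : ℝ) ^ r.eval x.length / 2 <
      Nat.card {w : Fin (r.eval x.length) → Bool // Alt (p.eval x.length)
        (Acc V (pairBits x (h x.length))) (k x.length) true [List.ofFn w]}

/-- The strings `z` for which the number of ones at the beginning is at most `κ(|z|) log |z|` and
the counting function `cf A` is odd. -/
def parL (A : Oracle) (κ : ℕ → ℕ) : Set (List Bool) :=
  {z | ones z ≤ κ z.length * Nat.log 2 z.length ∧ Odd (cf A z)}

end Pool.Agent.TH683.AL
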