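import Pool.Agent.TH683.AL.Low
import Pool.Agent.TH683.CP.Asym

/-!
# Lower bounds for the number of alternations
-/

set_option autoImplicit false

namespace Pool.Agent.TH683.AL

open Pool.Agent.NPC Pool.Agent.H620R2.Gauge Finset H568R2 Pool.Agent.H676 Pool.Agent.H943R3.PP
open Pool.Agent.TH683.CP MeasureTheory Filter

/-- the parameters decide the language with `k` alternations and some advice -/
def Ez3 (θ : Par3) (A : Oracle) (k : ℕ → ℕ) (L : Set (List Bool)) : Prop :=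
  ∃ (V : List Bool → List Bool) (h : ℕ → List Bool),
    (∀ x, θ.M.out A x = some (V x)) ∧ (∀ n, (h n).length ≤ θ.q.eval n) ∧
    ∀ x, x ∈ L ↔ (2 : ℝ) ^ θ.r.eval x.length / 2 <
      Nat.card {w : Fin (θ.r.eval x.length) → Bool // Alt (θ.p.eval x.length)
        (Acc V (pairBits x (h x.length))) (k x.length) true [List.ofFn w]}

theorem mem_ez3 {A : Oracle} {k : ℕ → ℕ} {L : Set (List Bool)} (h : IsMajAltPoly A k L) :
    ∃ θ, Ez3 θ A k L := by
  obtain ⟨V, p, r, q, h, ⟨M, hM⟩, hh, hx⟩ := h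
  exact ⟨⟨M, p, r, q⟩, V, h, hM, hh, hx⟩

theorem maj_iff3 {N : ℕ} (A : Oracle) (M : Alg) (V : List Bool → List Bool) (m k r ℓ : ℕ)
    (y : List Bool)
    (hV : ∀ ws : List (List Bool), sz ws ≤ ℓ →
      (Acc V y ws ↔ leaf M N (pairBits (bits ws) y) (pre N A) = true))
    (hl : 4 * r + 3 + k * (4 * m + 2) ≤ ℓ) :
    0 < maj m (lf M N (k + 1)) k r y (pre N A) ↔ (2 : ℝ) ^ r / 2 <
      Nat.card {w : Fin r → Bool // Alt m (Acc V y) k true [List.ofFn w]} := by
  classical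
  have h1 : ∑ w : Fin r → Bool,
      (if QF m (lf M N (k + 1)) k true (pairBits (List.ofFn w) y) (pre N A) = true
        then (1 : ℝ) else 0) =
      (Nat.card {w : Fin r → Bool // Alt m (Acc V y) k true [List.ofFn w]} : ℝ) := by
    rw [Finset.sum_boole, Nat.card_eq_fintype_card, Fintype.card_subtype]
    congr 2
    ext w
    simp only [Finset.mem_filter, Finset.mem_univ, true_and]
    have h2 := alt_iff (D := k + 1) (m := m) M (pre N A) (Acc V y) y ℓ hV k 1 true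
      (pairBits (List.ofFn w) y) [List.ofFn w] (by omega) (by rw [dec_pair]; rfl) (by
        have h3 := sz_str_le (List.ofFn w)
        rw [List.length_ofFn] at h3
        simp only [sz_list_cons, sz_list_nil] at h3 ⊢
        omega)
    exact h2.symm
  unfold maj
  rw [h1]
  generalize Nat.card {w : Fin r → Bool // Alt m (Acc V y) k true [List.ofFn w]} = s
  constructor
  · intro h
    linarith
  · intro h
    have h2 : (2 : ℝ) ^ r < 2 * s := by linarith
    have h3 : 2 ^ r < 2 * s := by exact_mod_cast h2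
    have h4 : ((2 ^ r + 1 : ℕ) : ℝ) ≤ ((2 * s : ℕ) : ℝ) := by exact_mod_cast h3
    push_cast at h4
    linarith

theorem ez3_right (θ : Par3) : ∃ Q : Polynomial ℕ, ∀ (A : Oracle) (k : ℕ → ℕ)
    (L : Set (List Bool)), Ez3 θ A k L → ∀ m j N u : ℕ, 4 * u ≤ m → k (j + 1 + m) ≤ j + 1 + m →
    2 ^ (Q.eval (j + 1 + m) + 1) ≤ N →
    ¬ EvA θ m j N u (k (j + 1 + m)) (pre N A) →
    Nat.card {y : Fin m → Bool // (cod j (List.ofFn y) ∈ L ↔
      Odd (cntJ A j (cod j (List.ofFn y))))} ≤ 2 ^ (m - 4 * u) * R0 u := by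
  classical
  obtain ⟨qb, hqb⟩ := Alg.out_local θ.M
  refine ⟨qb.comp θ.L' + 2 * Polynomial.X, ?_⟩
  rintro A k L ⟨V, h, hM, hh, hx⟩ m j N u hm hk hN hev
  set n := j + 1 + m with hn
  have hQ : (qb.comp θ.L' + 2 * Polynomial.X).eval n = qb.eval (θ.L'.eval n) + 2 * n := by
    simp [Polynomial.eval_comp]
  rw [hQ] at hN
  have hV : ∀ y : List Bool, y.length ≤ θ.L'.eval n →
      (V y = [true] ↔ leaf θ.M N y (pre N A) = true) := by
    intro y hy
    obtain ⟨Q, _, hQl, hQA⟩ := hqb A y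
    have h1 : θ.M.out (orc N (pre N A)) y = θ.M.out A y := by
      apply hQA
      intro q hq
      apply orc_pre
      have h2 := idx_lt q
      have h3 : q.length ≤ qb.eval (θ.L'.eval n) := (hQl q hq).trans (eval_mono _ hy)
      have h4 : 2 ^ (q.length + 1) ≤ 2 ^ (qb.eval (θ.L'.eval n) + 2 * n + 1) :=
        Nat.pow_le_pow_right (by norm_num) (by omega)
      omega
    unfold leaf
    rw [h1, hM y, decide_eq_true_eq, Option.some.injEq]
  rw [card_bits m (fun y => (cod j y ∈ L ↔ Odd (cntJ A j (cod j y))))]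
  have hK : 2 ^ m = 2 ^ (m - 4 * u) * 2 ^ (4 * u) := by
    rw [← pow_add, Nat.sub_add_cancel hm]
  rw [hK]
  apply count_blocks
  intro b hb
  by_contra hcon
  push Not at hcon
  apply hev
  refine ⟨b, hb, (h n).length, hh n, h n, mem_strsOf _, ?_⟩
  refine hcon.le.trans (le_of_eq ?_)
  congr 1
  refine Finset.filter_congr fun i _ => ?_
  have hlen : (inp m j u b i).length = n := length_inp m j u b i
  have h1 := hx (inp m j u b i)
  rw [hlen] at h1
  have hN' : 2 ^ ((inp m j u b i).length + j + 1) ≤ N + 1 := by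
    rw [hlen]
    have h4 : 2 ^ (n + j + 1) ≤ 2 ^ (qb.eval (θ.L'.eval n) + 2 * n + 1) :=
        Nat.pow_le_pow_right (by norm_num) (by omega)
    omega
  have h2 := blkJ_par N j A (inp m j u b i) hN'
  have h3 := maj_iff3 A θ.M V (θ.p.eval n) (k n) (θ.r.eval n)
    (4 * θ.r.eval n + 3 + k n * (4 * θ.p.eval n + 2)) (pairBits (inp m j u b i) (h n)) (by
      intro ws hws
      apply hV
      rw [length_pairBits, length_pairBits, bits_length, hlen, θ.eval_L', θ.eval_L]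
      have h5 := hh n
      have h6 : k n * (4 * θ.p.eval n + 2) ≤ n * (4 * θ.p.eval n + 2) :=
        Nat.mul_le_mul_right _ hk
      have h7 : n * (4 * θ.p.eval n + 2) = 2 * (n * (2 * θ.p.eval n + 1)) := by ring
      omega) le_rfl
  rw [h2, h3]
  show (inp m j u b i ∈ L ↔ Odd (cntJ A j (inp m j u b i))) ↔ _
  rw [h1]

theorem asym_real3 : ∀ᶠ x : ℝ in atTop,
    x + 1 + x ^ 4 * (x ^ 30 + 1) ≤ 2 ^ (x / 8) := by
  have hb : (0 : ℝ) < Real.log 2 / 8 := by
    have := Real.log_pos (by norm_num : (1 : ℝ) < 2)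
    positivity
  have h1 := (isLittleO_pow_exp_pos_mul_atTop (k := 35) hb).def (zero_lt_one)
  filter_upwards [h1, eventually_ge_atTop (4 : ℝ)] with x hx h4
  have hx0 : 0 < x := by linarith
  have h5 : x ^ 35 ≤ 2 ^ (x / 8) := by
    rw [Real.rpow_def_of_pos (by norm_num)]
    rw [one_mul, Real.norm_eq_abs, Real.norm_eq_abs, abs_of_pos (by positivity),
      abs_of_pos (Real.exp_pos _)] at hx
    rw [show Real.log 2 * (x / 8) = Real.log 2 / 8 * x by ring]
    exact hx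
  refine le_trans ?_ h5
  have h1x : (1 : ℝ) ≤ x := by linarith
  have hx34 : 1 ≤ x ^ 34 := one_le_pow₀ h1x
  have hx4 : x ^ 4 ≤ x ^ 34 := pow_le_pow_right₀ h1x (by norm_num)
  have hx1 : x ≤ x ^ 34 := by
    calc x = x ^ 1 := by ring
      _ ≤ x ^ 34 := pow_le_pow_right₀ h1x (by norm_num)
  calc x + 1 + x ^ 4 * (x ^ 30 + 1) = x + 1 + x ^ 34 + x ^ 4 := by ring
    _ ≤ 4 * x ^ 34 := by linarith
    _ ≤ x * x ^ 34 := by gcongr
    _ = x ^ 35 := by ring

theorem asymA (P : Polynomial ℕ) : ∃ e n₀ : ℕ, 1 ≤ e ∧ ∀ m ≥ n₀, ∀ j ≤ m, ∀ k,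
    40 * (k + 1) * e * Nat.log 2 m ≤ j →
    3 ≤ j / (40 * (k + 1)) ∧ P.eval (j + 1 + m) ≤ 2 ^ (j / (40 * (k + 1))) ∧
    4 * (j / (40 * (k + 1))) ≤ m ∧ k ≤ m ∧
    2 ^ m * bndJ k (P.eval (j + 1 + m)) (j / (40 * (k + 1))) ≤ (1 / 2) ^ (3 * m) := by
  set Q0 : Polynomial ℕ := Polynomial.X + P.comp (3 * Polynomial.X) with hQ0
  have hQ0e : ∀ m, Q0.eval m = m + P.eval (3 * m) := by
    intro m
    simp [hQ0, Polynomial.eval_comp]
  obtain ⟨x₀, hx₀⟩ := eventually_atTop.1 asym_real3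
  refine ⟨2 * (Q0.natDegree + 1), max (max 2 (8 * Q0.eval 1)) ⌈x₀⌉₊, by omega, ?_⟩
  intro m hm j hj k hl
  set D : ℕ := 40 * (k + 1) with hD
  have hD0 : 0 < D := by omega
  have hm2 : 2 ≤ m := (le_max_left _ _).trans ((le_max_left _ _).trans hm)
  have hm8 : 8 * Q0.eval 1 ≤ m := (le_max_right _ _).trans ((le_max_left _ _).trans hm)
  have hmx : x₀ ≤ m := (Nat.le_ceil x₀).trans (by exact_mod_cast (le_max_right _ _).trans hm)
  set u : ℕ := j / D with hu
  have hu1 : 2 * (Q0.natDegree + 1) * Nat.log 2 m ≤ u := by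
    rw [hu, Nat.le_div_iff_mul_le hD0]
    calc 2 * (Q0.natDegree + 1) * Nat.log 2 m * D = D * (2 * (Q0.natDegree + 1)) * Nat.log 2 m := by
          ring
      _ ≤ j := hl
  set w : ℕ := 2 ^ Nat.log 2 m with hw
  have hw1 : m < 2 * w := by
    have := Nat.lt_pow_succ_log_self (b := 2) (by norm_num) m
    rw [hw, ← pow_succ']
    exact this
  have hlog1 : 1 ≤ Nat.log 2 m := Nat.le_log_of_pow_le (by norm_num) (by simpa using hm2)
  have hw2 : 2 ≤ w := by
    calc 2 = 2 ^ 1 := rfl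
      _ ≤ w := Nat.pow_le_pow_right (by norm_num) hlog1
  have hww : m ≤ w ^ 2 := by nlinarith
  have hT : m ^ (Q0.natDegree + 1) ≤ 2 ^ u := by
    calc m ^ (Q0.natDegree + 1) ≤ (w ^ 2) ^ (Q0.natDegree + 1) := Nat.pow_le_pow_left hww _
      _ = 2 ^ (2 * (Q0.natDegree + 1) * Nat.log 2 m) := by
          rw [hw, ← pow_mul, ← pow_mul]
          congr 1
          ring
      _ ≤ 2 ^ u := Nat.pow_le_pow_right (by norm_num) hu1
  have hQT : 8 * Q0.eval m ≤ 2 ^ u := by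
    refine le_trans ?_ hT
    have h1 := Y_poly_le Q0 m (by omega)
    calc 8 * Q0.eval m ≤ 8 * (Q0.eval 1 * m ^ Q0.natDegree) := Nat.mul_le_mul_left _ h1
      _ = (8 * Q0.eval 1) * m ^ Q0.natDegree := by ring
      _ ≤ m * m ^ Q0.natDegree := Nat.mul_le_mul_right _ hm8
      _ = m ^ (Q0.natDegree + 1) := by ring
  have hPQ : P.eval (j + 1 + m) ≤ P.eval (3 * m) := eval_mono _ (by omega)
  rw [hQ0e] at hQT
  have hu3 : 3 ≤ u := by
    by_contra hcon
    have h1 : 2 ^ u ≤ 2 ^ 2 := Nat.pow_le_pow_right (by norm_num) (by omega)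
    omega
  have huj : u * D ≤ j := Nat.div_mul_le_self j D
  have h4u : 4 * u ≤ m := by
    have h1 : u * 40 ≤ u * D := Nat.mul_le_mul_left _ (by omega)
    omega
  have hkm : k ≤ m := by
    have h1 : 1 * D ≤ u * D := Nat.mul_le_mul_right _ (by omega)
    omega
  refine ⟨hu3, by omega, h4u, hkm, ?_⟩
  -- the bound
  set T : ℝ := (2 : ℝ) ^ u with hTdef
  have hT0 : 0 < T := by positivity
  have hTm : (8 : ℝ) * m ≤ T := by
    have : 8 * m ≤ 2 ^ u := by omega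
    rw [hTdef]
    exact_mod_cast this
  have hTP : (8 : ℝ) * (P.eval (j + 1 + m) : ℕ) ≤ T := by
    have : 8 * P.eval (j + 1 + m) ≤ 2 ^ u := by omega
    rw [hTdef]
    exact_mod_cast this
  have hm0 : (0 : ℝ) ≤ m := Nat.cast_nonneg m
  have hkT : (k : ℝ) ≤ T := by
    have : (k : ℝ) ≤ m := by exact_mod_cast hkm
    linarith
  have hx1 : (k : ℝ) + 1 + T ^ 4 * (T ^ 30 + 1) ≤ 2 ^ (T / 8) := by
    have := hx₀ T (by linarith)
    linarith
  have e4 : (2 : ℝ) ^ (4 * u) = T ^ 4 := by rw [hTdef, ← pow_mul]; congr 1; ring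
  have e30 : (2 : ℝ) ^ (30 * u) = T ^ 30 := by rw [hTdef, ← pow_mul]; congr 1; ring
  have h2 : (0 : ℝ) < 2 := by norm_num
  have eT : ((1 : ℝ) / 2) ^ 2 ^ u = 2 ^ (-T) := by
    rw [Real.rpow_neg h2.le, one_div, inv_pow, hTdef, ← Real.rpow_natCast]
    push_cast; rfl
  have em : (2 : ℝ) ^ m ≤ 2 ^ (T / 8) := by
    rw [← Real.rpow_natCast]
    apply Real.rpow_le_rpow_of_exponent_le (by norm_num)
    linarith
  have eP : (2 : ℝ) ^ P.eval (j + 1 + m) ≤ 2 ^ (T / 8) := by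
    rw [← Real.rpow_natCast]
    apply Real.rpow_le_rpow_of_exponent_le (by norm_num)
    linarith
  have e3 : ((1 : ℝ) / 2) ^ (3 * m) = 2 ^ (-(3 * m : ℝ)) := by
    rw [Real.rpow_neg h2.le, one_div, inv_pow, ← Real.rpow_natCast]
    push_cast; rfl
  unfold bndJ
  rw [e4, e30, eT, e3]
  calc (2 : ℝ) ^ m * (2 ^ P.eval (j + 1 + m) * ((k + 1 + T ^ 4 * (T ^ 30 + 1)) * 2 ^ (-T)))
      ≤ 2 ^ (T / 8) * (2 ^ (T / 8) * (2 ^ (T / 8) * 2 ^ (-T))) := by gcongr
    _ = 2 ^ (T / 8 + (T / 8 + (T / 8 + -T))) := by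
        rw [Real.rpow_add h2, Real.rpow_add h2, Real.rpow_add h2]
    _ ≤ 2 ^ (-(3 * m : ℝ)) := by
        apply Real.rpow_le_rpow_of_exponent_le (by norm_num)
        linarith

/-- the event at length `m` -/
def Em3 (θ : Par3) (e : ℕ) (N : ℕ → ℕ) (m : ℕ) : Set Oracle :=
  {A | ∃ j ≤ m, ∃ k, 40 * (k + 1) * e * Nat.log 2 m ≤ j ∧
    EvA θ m j (N m) (j / (40 * (k + 1))) k (pre (N m) A)}

theorem prob_Em3 (θ : Par3) (N : ℕ → ℕ)
    (hN : ∀ m j, j ≤ m → 2 ^ (j + 1 + m + j + 1) ≤ N m + 1) :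
    ∃ e n₀ : ℕ, 1 ≤ e ∧ ∀ m ≥ n₀, ranO (Em3 θ e N m) ≤ ENNReal.ofReal ((1 / 2) ^ m) := by
  classical
  obtain ⟨e, n₀, he, h⟩ := asymA θ.P
  refine ⟨e, n₀, he, fun m hm => ?_⟩
  set I : Finset (ℕ × ℕ) := ((Finset.range (m + 1)) ×ˢ (Finset.range (m + 1))).filter
      (fun x => 40 * (x.2 + 1) * e * Nat.log 2 m ≤ x.1) with hI
  have hsub : Em3 θ e N m ⊆ ⋃ x ∈ I,
      {A : Oracle | EvA θ m x.1 (N m) (x.1 / (40 * (x.2 + 1))) x.2 (pre (N m) A)} := by
    rintro A ⟨j, hj, k, hl, hA⟩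
    have hk : k ≤ m := (h m hm j hj k hl).2.2.2.1
    simp only [Set.mem_iUnion, exists_prop]
    refine ⟨(j, k), ?_, hA⟩
    rw [hI, Finset.mem_filter, Finset.mem_product, Finset.mem_range, Finset.mem_range]
    exact ⟨⟨Nat.lt_succ_of_le hj, Nat.lt_succ_of_le hk⟩, hl⟩
  refine (measure_mono hsub).trans ((measure_biUnion_finset_le _ _).trans ?_)
  have h1 : ∀ x ∈ I,
      ranO {A : Oracle | EvA θ m x.1 (N m) (x.1 / (40 * (x.2 + 1))) x.2 (pre (N m) A)} ≤
        ENNReal.ofReal ((1 / 2) ^ (3 * m)) := by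
    rintro ⟨j, k⟩ hx
    rw [hI, Finset.mem_filter, Finset.mem_product, Finset.mem_range, Finset.mem_range] at hx
    obtain ⟨⟨hj, hk⟩, hl⟩ := hx
    dsimp only at hj hk hl ⊢
    obtain ⟨c1, c2, c3, _, c4⟩ := h m hm j (by omega) k hl
    refine (ranO_pre _).trans (ENNReal.ofReal_le_ofReal ?_)
    refine le_trans ?_ c4
    have c5 := evA_bound θ (N := N m) c1 c2 (Nat.mul_div_le j (40 * (k + 1))) c3
      (hN m j (by omega))
    refine le_trans (le_of_eq ?_) c5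
    refine congrArg (Ex unif) (funext fun a => ?_)
    by_cases ha : EvA θ m j (N m) (j / (40 * (k + 1))) k a
    · rw [if_pos ha]
    · rw [if_neg ha]
  refine (Finset.sum_le_sum h1).trans ?_
  rw [Finset.sum_const, nsmul_eq_mul, ← ENNReal.ofReal_natCast, ← ENNReal.ofReal_mul (by positivity)]
  apply ENNReal.ofReal_le_ofReal
  have h2 : ((I.card : ℕ) : ℝ) ≤ 2 ^ m * 2 ^ m := by
    have h3 : I.card ≤ 2 ^ m * 2 ^ m := by
      refine (Finset.card_filter_le _ _).trans ?_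
      rw [Finset.card_product, Finset.card_range]
      exact Nat.mul_le_mul Nat.lt_two_pow_self Nat.lt_two_pow_self
    exact_mod_cast h3
  calc _ ≤ ((2 : ℝ) ^ m * 2 ^ m) * (1 / 2) ^ (3 * m) := by gcongr
    _ = (2 ^ m * (1 / 2) ^ m) * (2 ^ m * (1 / 2) ^ m) * (1 / 2) ^ m := by
        rw [show 3 * m = m + m + m by ring, pow_add, pow_add]
        ring
    _ = (1 / 2) ^ m := by
        rw [← mul_pow]
        norm_num

theorem ae_Em3 (θ : Par3) (N : ℕ → ℕ)
    (hN : ∀ m j, j ≤ m → 2 ^ (j + 1 + m + j + 1) ≤ N m + 1) :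
    ∃ e : ℕ, 1 ≤ e ∧ ∀ᵐ A ∂ranO, ∃ n₀ : ℕ, ∀ m ≥ n₀, A ∉ Em3 θ e N m := by
  obtain ⟨e, n₀, he, h⟩ := prob_Em3 θ N hN
  refine ⟨e, he, ?_⟩
  have hsum : ∑' m, ranO (Em3 θ e N (n₀ + m)) ≠ ⊤ := by
    have h1 : ∑' m, ranO (Em3 θ e N (n₀ + m)) ≤ ∑' m : ℕ, (2⁻¹ : ENNReal) ^ m := by
      refine ENNReal.tsum_le_tsum fun m => ?_
      refine (h (n₀ + m) (by omega)).trans ?_
      have h2 : ENNReal.ofReal ((1 / 2) ^ (n₀ + m)) ≤ ENNReal.ofReal ((1 / 2) ^ m) := by
        apply ENNReal.ofReal_le_ofReal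
        exact pow_le_pow_of_le_one (by norm_num) (by norm_num) (by omega)
      refine h2.trans (le_of_eq ?_)
      rw [ENNReal.ofReal_pow (by norm_num), one_div, ENNReal.ofReal_inv_of_pos (by positivity)]
      simp
    refine ne_top_of_le_ne_top ?_ h1
    rw [ENNReal.tsum_geometric, ENNReal.one_sub_inv_two, inv_inv]
    exact ENNReal.ofNat_ne_top
  have h2 := ae_eventually_notMem hsum
  filter_upwards [h2] with A hA
  obtain ⟨n₁, hn₁⟩ := eventually_atTop.1 hA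
  refine ⟨n₀ + n₁, fun m hm => ?_⟩
  have := hn₁ (m - n₀) (by omega)
  rwa [Nat.add_sub_cancel' (by omega)] at this

/-- The parities cannot be predicted with few alternations. -/
theorem ae_alt : ∀ᵐ A ∂ranO, ∀ (k : ℕ → ℕ) (L : Set (List Bool)), IsMajAltPoly A k L →
    ∃ c : ℕ, 1 ≤ c ∧ ∀ m j : ℕ, c * (k (j + 1 + m) + 1) * Nat.log 2 m ≤ j → j ≤ m →
      (Nat.card {y : Fin m → Bool // (cod j (List.ofFn y) ∈ L ↔
        Odd (cf A (cod j (List.ofFn y))))} : ℝ) ≤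
      (1 / 2 + 2 ^ (-(j : ℝ) / (c * (k (j + 1 + m) + 1)))) * 2 ^ m := by
  choose Q hQ using ez3_right
  set N : Par3 → ℕ → ℕ := fun θ m => 2 ^ ((Q θ).eval (2 * m + 1) + 4 * m + 4) with hN
  have hNj : ∀ θ, ∀ m j, j ≤ m → 2 ^ (j + 1 + m + j + 1) ≤ N θ m + 1 := by
    intro θ m j hj
    have h1 : 2 ^ (j + 1 + m + j + 1) ≤ 2 ^ ((Q θ).eval (2 * m + 1) + 4 * m + 4) :=
      Nat.pow_le_pow_right (by norm_num) (by omega)
    exact h1.trans (Nat.le_succ _)
  have hNQ : ∀ θ, ∀ m j, j ≤ m → 2 ^ ((Q θ).eval (j + 1 + m) + 1) ≤ N θ m := by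
    intro θ m j hj
    have h2 : (Q θ).eval (j + 1 + m) ≤ (Q θ).eval (2 * m + 1) := eval_mono _ (by omega)
    exact Nat.pow_le_pow_right (by norm_num) (by omega)
  choose e he hae using fun θ => ae_Em3 θ (N θ) (hNj θ)
  filter_upwards [ae_all_iff.2 hae] with A hA k L hL
  obtain ⟨θ, hθ⟩ := mem_ez3 hL
  obtain ⟨n₀, hn₀⟩ := hA θ
  set c : ℕ := 80 * e θ + n₀ with hc
  have hc80 : 80 ≤ c := by
    have := he θ
    omega
  refine ⟨c, by omega, fun m j hl hj => ?_⟩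
  have hcf : Nat.card {y : Fin m → Bool // (cod j (List.ofFn y) ∈ L ↔
        Odd (cf A (cod j (List.ofFn y))))} = Nat.card {y : Fin m → Bool //
        (cod j (List.ofFn y) ∈ L ↔ Odd (cntJ A j (cod j (List.ofFn y))))} := by
    apply Nat.card_congr
    exact Equiv.subtypeEquivRight fun y => by rw [cf_cod]
  rw [hcf]
  set κ : ℕ := k (j + 1 + m) with hκ
  have hcard : (Nat.card {y : Fin m → Bool // (cod j (List.ofFn y) ∈ L ↔
        Odd (cntJ A j (cod j (List.ofFn y))))} : ℝ) ≤ 2 ^ m := by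
    have h1 : Nat.card {y : Fin m → Bool // (cod j (List.ofFn y) ∈ L ↔
        Odd (cntJ A j (cod j (List.ofFn y))))} ≤ 2 ^ m := by
      have h2 := Nat.card_le_card_of_injective
        (fun y : {y : Fin m → Bool // (cod j (List.ofFn y) ∈ L ↔
          Odd (cntJ A j (cod j (List.ofFn y))))} => y.1) Subtype.val_injective
      rw [Nat.card_eq_fintype_card (α := Fin m → Bool), Fintype.card_fun, Fintype.card_bool,
        Fintype.card_fin] at h2
      exact h2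
    exact_mod_cast h1
  have hc0 : (0 : ℝ) < (c : ℝ) * (κ + 1) := by
    have : (0 : ℝ) < c := by exact_mod_cast (by omega : 0 < c)
    positivity
  by_cases hjc : j ≤ c * (κ + 1)
  · refine hcard.trans ?_
    have h1 : (1 / 2 : ℝ) ≤ 2 ^ (-(j : ℝ) / (c * (κ + 1))) := by
      have h2 : (1 / 2 : ℝ) = 2 ^ (-1 : ℝ) := by
        rw [Real.rpow_neg (by norm_num), Real.rpow_one]
        norm_num
      rw [h2]
      apply Real.rpow_le_rpow_of_exponent_le (by norm_num)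
      rw [neg_div, neg_le_neg_iff, div_le_one hc0]
      exact_mod_cast hjc
    have h3 : (1 : ℝ) ≤ 1 / 2 + 2 ^ (-(j : ℝ) / (c * (κ + 1))) := by linarith
    calc (2 : ℝ) ^ m = 1 * 2 ^ m := by ring
      _ ≤ _ := by gcongr
  · push Not at hjc
    have hcκ : c ≤ c * (κ + 1) := Nat.le_mul_of_pos_right c (by omega)
    have hmn : n₀ ≤ m := by omega
    set D : ℕ := 40 * (κ + 1) with hD
    have hD0 : 0 < D := by omega
    have hl' : D * e θ * Nat.log 2 m ≤ j := by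
      refine le_trans (Nat.mul_le_mul_right _ ?_) hl
      calc D * e θ = 40 * e θ * (κ + 1) := by rw [hD]; ring
        _ ≤ c * (κ + 1) := Nat.mul_le_mul_right _ (by omega)
    set u : ℕ := j / D with hu
    have h80 : 80 * (κ + 1) ≤ c * (κ + 1) := Nat.mul_le_mul_right _ hc80
    have hu1 : 1 ≤ u := by
      rw [hu, Nat.le_div_iff_mul_le hD0]
      omega
    have h4u : 4 * u ≤ m := by
      have h1 : u * 40 ≤ j := by
        calc u * 40 ≤ u * D := Nat.mul_le_mul_left _ (by omega)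
          _ ≤ j := Nat.div_mul_le_self j D
      omega
    have hκm : κ ≤ j + 1 + m := by
      have h1 : u * D ≤ j := Nat.div_mul_le_self j D
      have h2 : 1 * D ≤ u * D := Nat.mul_le_mul_right _ hu1
      omega
    have hev : ¬ EvA θ m j (N θ m) u κ (pre (N θ m) A) := by
      intro hev
      exact hn₀ m hmn ⟨j, hj, κ, hl', hev⟩
    have h1 := hQ θ A k L hθ m j (N θ m) u h4u hκm (hNQ θ m j hj) hev
    have h2 : (Nat.card {y : Fin m → Bool // (cod j (List.ofFn y) ∈ L ↔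
        Odd (cntJ A j (cod j (List.ofFn y))))} : ℝ) ≤ ((2 ^ (m - 4 * u) * R0 u : ℕ) : ℝ) := by
      exact_mod_cast h1
    refine h2.trans ?_
    have h3 : ((2 ^ (m - 4 * u) * R0 u : ℕ) : ℝ) = (1 / 2 + 1 / 2 ^ u) * 2 ^ m := by
      rw [Nat.cast_mul, ← num_R0 hu1]
      push_cast
      have h5 : (2 : ℝ) ^ m = 2 ^ (m - 4 * u) * 2 ^ (4 * u) := by
        rw [← pow_add, Nat.sub_add_cancel h4u]
      rw [h5]
      ring
    rw [h3]
    have h6 : (1 : ℝ) / 2 ^ u ≤ 2 ^ (-(j : ℝ) / (c * (κ + 1))) := by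
      have h7 : (1 : ℝ) / 2 ^ u = 2 ^ (-(u : ℝ)) := by
        rw [Real.rpow_neg (by norm_num), Real.rpow_natCast, one_div]
      rw [h7]
      apply Real.rpow_le_rpow_of_exponent_le (by norm_num)
      rw [neg_div, neg_le_neg_iff, div_le_iff₀ hc0]
      have h8 : j ≤ u * (c * (κ + 1)) := by
        have h9 : j < D * (u + 1) := by
          have := Nat.lt_mul_div_succ j hD0
          rwa [← hu] at this
        have h10 : D * (u + 1) ≤ u * (2 * D) := by nlinarith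
        have h11 : u * (2 * D) ≤ u * (c * (κ + 1)) := Nat.mul_le_mul_left _ (by omega)
        omega
      exact_mod_cast h8
    gcongr

end Pool.Agent.TH683.AL
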