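import Pool.Agent.TH683.AL.UpC
import Pool.Agent.TH683.AL.Main

/-!
# The number of alternations that is needed
-/

set_option autoImplicit false

namespace Pool.Agent.TH683.AL

open Pool.Agent.NPC Pool.Agent.H620R2.Gauge Finset Pool.Agent.H943R3.PP
open Pool.Agent.TH683.CP N4

theorem need_alt {A : Oracle} {κ k : ℕ → ℕ} (hκ : ∀ n, 2 * (κ n * Nat.log 2 n) + 1 ≤ n ∨ n ≤ 1)
    {c : ℕ} (hc : 1 ≤ c) (h : ∀ m j : ℕ, c * (k (j + 1 + m) + 1) * Nat.log 2 m ≤ j → j ≤ m →
      (Nat.card {y : Fin m → Bool // (cod j (List.ofFn y) ∈ parL A κ ↔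
        Odd (cf A (cod j (List.ofFn y))))} : ℝ) ≤
      (1 / 2 + 2 ^ (-(j : ℝ) / (c * (k (j + 1 + m) + 1)))) * 2 ^ m) :
    ∀ n ≥ 2, κ n ≤ c * (k n + 1) := by
  intro n hn
  have h1 : 2 * (κ n * Nat.log 2 n) + 1 ≤ n := by
    rcases hκ n with h | h
    · exact h
    · omega
  obtain ⟨j, hj⟩ : ∃ j, j = κ n * Nat.log 2 n := ⟨_, rfl⟩
  rw [← hj] at h1
  obtain ⟨m, hm⟩ : ∃ m, n = j + 1 + m := ⟨n - (j + 1), by omega⟩
  have hjm : j ≤ m := by omega
  have hlog : 1 ≤ Nat.log 2 n := Nat.log_pos (by norm_num) hn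
  have hκj : κ n ≤ j := by
    rw [hj]
    exact Nat.le_mul_of_pos_right _ hlog
  have hcard : Nat.card {y : Fin m → Bool // (cod j (List.ofFn y) ∈ parL A κ ↔
        Odd (cf A (cod j (List.ofFn y))))} = 2 ^ m := by
    have h2 : Nat.card {y : Fin m → Bool // (cod j (List.ofFn y) ∈ parL A κ ↔
        Odd (cf A (cod j (List.ofFn y))))} = Nat.card (Fin m → Bool) := by
      apply Nat.card_congr
      refine Equiv.subtypeUnivEquiv fun y => ?_
      have h3 : (cod j (List.ofFn y)).length = n := by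
        rw [length_cod, List.length_ofFn, hm]
      unfold parL
      rw [Set.mem_ofPred_eq, ones_cod, h3, ← hj]
      exact and_iff_right le_rfl
    rw [h2, Nat.card_eq_fintype_card, Fintype.card_fun, Fintype.card_bool, Fintype.card_fin]
  have hkn : k (j + 1 + m) = k n := by rw [hm]
  by_cases hl : c * (k n + 1) * Nat.log 2 m ≤ j
  · have h2 := h m j (by rw [hkn]; exact hl) hjm
    rw [hcard, hkn] at h2
    push_cast at h2
    have hp : (0 : ℝ) < 2 ^ m := by positivity
    have h3 : (1 : ℝ) ≤ 1 / 2 + 2 ^ (-(j : ℝ) / (c * (k n + 1))) := by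
      by_contra hlt
      push Not at hlt
      nlinarith
    have h4 : (2 : ℝ) ^ (-1 : ℝ) ≤ 2 ^ (-(j : ℝ) / (c * (k n + 1))) := by
      have : (2 : ℝ) ^ (-1 : ℝ) = 1 / 2 := by
        rw [Real.rpow_neg (by norm_num), Real.rpow_one]
        norm_num
      rw [this]
      linarith
    have h5 := (Real.rpow_le_rpow_left_iff (by norm_num : (1 : ℝ) < 2)).1 h4
    have hc0 : (0 : ℝ) < (c : ℝ) * (k n + 1) := by
      have : (0 : ℝ) < c := by exact_mod_cast (by omega : 0 < c)
      positivity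
    rw [neg_div, neg_le_neg_iff, div_le_one hc0] at h5
    have h6 : j ≤ c * (k n + 1) := by exact_mod_cast h5
    omega
  · push Not at hl
    have h2 : Nat.log 2 m ≤ Nat.log 2 n := Nat.log_mono_right (by omega)
    have h3 : κ n * Nat.log 2 n < c * (k n + 1) * Nat.log 2 n := by
      rw [← hj]
      exact hl.trans_le (Nat.mul_le_mul_left _ h2)
    exact (Nat.lt_of_mul_lt_mul_right h3).le

end Pool.Agent.TH683.AL
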