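import Pool.Agent.TH683.AL.Defs
import Pool.Agent.TH683.CP.Sharp

/-!
# Lower bounds for the number of alternations: the event
-/

set_option autoImplicit false

namespace Pool.Agent.TH683.AL

open Pool.Agent.NPC Pool.Agent.H620R2.Gauge Finset H568R2 Pool.Agent.H676 Pool.Agent.H943R3.PP
open Pool.Agent.TH683.CP

/-! ### Nested pairs -/

/-- the first components of `d` nested pairs, and the innermost string -/
def dec : ℕ → List Bool → List (List Bool) × List Bool
  | 0, y => ([], y)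
  | d + 1, y => ((unpair y).1 :: (dec d (unpair y).2).1, (dec d (unpair y).2).2)

theorem dec_pair (d : ℕ) (w y : List Bool) :
    dec (d + 1) (pairBits w y) = (w :: (dec d y).1, (dec d y).2) := by
  simp only [dec, unpair_pairBits]

theorem ustep_len (s : List Bool × List Bool × Bool) :
    (ustep s).1.length + (ustep s).2.1.length ≤ s.1.length + s.2.1.length := by
  obtain ⟨a, l, b⟩ := s
  unfold ustep
  cases b with
  | true => simp
  | false =>
    match l with
    | [] => simp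
    | true :: [] => simp
    | true :: c :: l' => simp; omega
    | false :: l' => simp

theorem unpair_len (y : List Bool) : (unpair y).1.length + (unpair y).2.length ≤ y.length := by
  unfold unpair
  simp only [List.length_reverse]
  have key : ∀ (k : ℕ) (s : List Bool × List Bool × Bool),
      (ustep^[k] s).1.length + (ustep^[k] s).2.1.length ≤ s.1.length + s.2.1.length := by
    intro k
    induction k with
    | zero => intro s; exact le_rfl
    | succ k ih =>
      intro s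
      rw [Function.iterate_succ_apply]
      exact (ih _).trans (ustep_len s)
  refine (key _ _).trans ?_
  simp

theorem sz_str_le (w : List Bool) : sz w ≤ 4 * w.length + 1 := by
  induction w with
  | nil => simp
  | cons b w ih =>
    have := sz_bool_le b
    simp only [sz_list_cons, List.length_cons]
    omega

theorem dec_len : ∀ (d : ℕ) (y : List Bool),
    sz (dec d y).1 + 4 * (dec d y).2.length ≤ 4 * y.length + 2 * d + 1
  | 0, y => by simp [dec]; omega
  | d + 1, y => by
    have h1 := dec_len d (unpair y).2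
    have h2 := unpair_len y
    have h3 := sz_str_le (unpair y).1
    simp only [dec, sz_list_cons]
    omega

/-- the leaf function -/
def lf (M : Alg) (N D : ℕ) (y : List Bool) (a : Fin N → Bool) : Bool :=
  leaf M N (pairBits (bits (dec D y).1) (dec D y).2) a

theorem lf_len (D : ℕ) (y : List Bool) :
    (pairBits (bits (dec D y).1) (dec D y).2).length ≤ 9 * y.length + 4 * D + 3 := by
  have h := dec_len D y
  rw [length_pairBits, bits_length]
  omega

theorem alt_iff {N m D : ℕ} (M : Alg) (a : Fin N → Bool) (P : List (List Bool) → Prop)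
    (y : List Bool) (ℓ : ℕ)
    (hP : ∀ ws : List (List Bool), sz ws ≤ ℓ →
      (P ws ↔ leaf M N (pairBits (bits ws) y) a = true)) :
    ∀ (i d : ℕ) (b : Bool) (Y : List Bool) (ws : List (List Bool)), d + i = D →
      dec d Y = (ws, y) → sz ws + i * (4 * m + 2) ≤ ℓ →
      (Alt m P i b ws ↔ QF m (lf M N D) i b Y a = true) := by
  intro i
  induction i with
  | zero =>
    intro d b Y ws hd hY hs
    simp only [Alt, QF]
    have : d = D := by omega
    subst this
    unfold lf
    rw [hY]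
    exact hP ws (by omega)
  | succ i ih =>
    intro d b Y ws hd hY hs
    have h1 : ∀ w : List Bool, dec (d + 1) (pairBits w Y) = (w :: ws, y) := by
      intro w
      rw [dec_pair, hY]
    have h2 : ∀ w : List Bool, w.length ≤ m → sz (w :: ws) + i * (4 * m + 2) ≤ ℓ := by
      intro w hw
      have h3 := sz_str_le w
      rw [sz_list_cons]
      have : (i + 1) * (4 * m + 2) = i * (4 * m + 2) + (4 * m + 2) := by ring
      omega
    cases b with
    | true =>
      simp only [Alt, QF, decide_eq_true_eq]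
      exact exists_congr fun w => and_congr_right fun hw =>
        ih (d + 1) false _ _ (by omega) (h1 w) (h2 w hw)
    | false =>
      simp only [Alt, QF, decide_eq_true_eq]
      exact forall_congr' fun w => forall_congr' fun hw =>
        ih (d + 1) true _ _ (by omega) (h1 w) (h2 w hw)

/-! ### The parameters -/

/-- The parameters: the algorithm, the bound for the quantifiers, the number of the random bits,
the bound for the advice. -/
structure Par3 : Type where
  M : Alg
  p : Polynomial ℕ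
  r : Polynomial ℕ
  q : Polynomial ℕ

instance : Countable Par3 := by
  have h2 : Countable (Polynomial ℕ) := by
    have : Function.Injective (fun p : Polynomial ℕ => (p.toFinsupp.coeff : ℕ →₀ ℕ)) := by
      intro p q h
      ext n
      exact DFunLike.congr_fun h n
    exact this.countable
  let F : Par3 → Alg × Polynomial ℕ × Polynomial ℕ × Polynomial ℕ :=
    fun θ => (θ.M, θ.p, θ.r, θ.q)
  have hF : Function.Injective F := by
    rintro ⟨M, p, r, q⟩ ⟨N, p', r', q'⟩ h
    simp only [F, Prod.mk.injEq] at h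
    obtain ⟨rfl, rfl, rfl, rfl⟩ := h
    rfl
  exact hF.countable

/-- the length of the nested pairs -/
noncomputable def Par3.L (θ : Par3) : Polynomial ℕ :=
  2 * Polynomial.X + 1 + θ.q + (2 * θ.r + 1) + Polynomial.X * (2 * θ.p + 1)

/-- the length of the inputs of the algorithm -/
noncomputable def Par3.L' (θ : Par3) : Polynomial ℕ :=
  9 * θ.L + 4 * Polynomial.X + 7

/-- the polynomial for the final bound -/
noncomputable def Par3.P (θ : Par3) : Polynomial ℕ := 2 * θ.L + 20 + θ.M.p.comp θ.L'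

theorem Par3.eval_L (θ : Par3) (n : ℕ) : θ.L.eval n =
    2 * n + 1 + θ.q.eval n + (2 * θ.r.eval n + 1) + n * (2 * θ.p.eval n + 1) := by
  simp [Par3.L]

theorem Par3.eval_L' (θ : Par3) (n : ℕ) : θ.L'.eval n = 9 * θ.L.eval n + 4 * n + 7 := by
  simp [Par3.L']

theorem Par3.eval_P (θ : Par3) (n : ℕ) : θ.P.eval n =
    2 * θ.L.eval n + 20 + θ.M.p.eval (θ.L'.eval n) := by
  simp [Par3.P, Polynomial.eval_comp]

open Classical in
/-- the event for advice of length `c` and block number `b` -/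
def EvAC (θ : Par3) (m j N u k b c : ℕ) (a : Fin N → Bool) : Prop :=
  ∃ h ∈ strsOf c, R0 u ≤ ((Finset.range (2 ^ (4 * u))).filter (fun i =>
    (0 < maj (θ.p.eval (j + 1 + m)) (lf θ.M N (k + 1)) k (θ.r.eval (j + 1 + m))
      (pairBits (inp m j u b i) h) a ↔ par (blkJ N j (inp m j u b i)) a = true))).card

/-- the event -/
def EvA (θ : Par3) (m j N u k : ℕ) (a : Fin N → Bool) : Prop :=
  ∃ b < 2 ^ (m - 4 * u), ∃ c ≤ θ.q.eval (j + 1 + m), EvAC θ m j N u k b c a

open Classical in
theorem evAC_bound (θ : Par3) {m j N u k b c : ℕ} (hu3 : 3 ≤ u)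
    (hP : θ.P.eval (j + 1 + m) ≤ 2 ^ u)
    (hu : 40 * (k + 1) * u ≤ j) (hm : 4 * u ≤ m) (hb : b < 2 ^ (m - 4 * u))
    (hN : 2 ^ (j + 1 + m + j + 1) ≤ N + 1) (hc : c ≤ θ.q.eval (j + 1 + m)) :
    Ex unif (fun a : Fin N → Bool => if EvAC θ m j N u k b c a then (1 : ℝ) else 0) ≤
      2 ^ (θ.L.eval (j + 1 + m) + 2) *
        ((k + 1 + 2 ^ (4 * u) * (2 ^ (30 * u) + 1)) * (1 / 2) ^ 2 ^ u) := by
  set n := j + 1 + m with hn
  set t : ℕ := 2 ^ (2 * u) with ht
  have ht1 : 1 ≤ t := Nat.one_le_two_pow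
  have htR : (1 : ℝ) ≤ (t : ℝ) := by exact_mod_cast ht1
  set q : ℝ := 1 / (24 * t) with hq
  have hq0 : 0 ≤ q := by positivity
  have hq1 : q ≤ 1 / 3 := by
    rw [hq, div_le_div_iff₀ (by positivity) (by norm_num)]
    linarith
  have hE := θ.eval_P n
  have hut : 2 ^ u ≤ t := Nat.pow_le_pow_right (by norm_num) (by omega)
  set K : ℕ := 2 ^ (4 * u) with hK
  set r : ℕ := 2 ^ (30 * u) with hr
  set s : ℕ := 2 ^ j / (2 ^ (30 * u) + 1) with hs
  have hkj : k + 1 ≤ j := by nlinarith
  have hkn : k ≤ n := by omega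
  have hlen : 2 * n + 1 + c + (2 * θ.r.eval n + 1) + k * (2 * θ.p.eval n + 1) ≤ θ.L.eval n := by
    rw [θ.eval_L]
    have := Nat.mul_le_mul_right (2 * θ.p.eval n + 1) hkn
    omega
  have hrr : θ.r.eval n + 3 ≤ 2 ^ u := by omega
  have hin : ∀ i ∈ Finset.range (2 ^ (4 * u)), b * 2 ^ (4 * u) + i < 2 ^ m := by
    intro i hi
    rw [Finset.mem_range] at hi
    have h1 : (b + 1) * 2 ^ (4 * u) ≤ 2 ^ (m - 4 * u) * 2 ^ (4 * u) :=
      Nat.mul_le_mul_right _ hb
    rw [← pow_add, Nat.sub_add_cancel hm] at h1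
    have h2 : (b + 1) * 2 ^ (4 * u) = b * 2 ^ (4 * u) + 2 ^ (4 * u) := by ring
    omega
  have hM2 : 2 ≤ 2 ^ u := by
    calc 2 = 2 ^ 1 := rfl
      _ ≤ 2 ^ u := Nat.pow_le_pow_right (by norm_num) (by omega)
  have h1 := comb3 (I := Fin N) ht1 hq0 hq1 (θ.p.eval n) (lf θ.M N (k + 1)) k (2 * n + 1 + c)
    (θ.r.eval n) (by
    intro y hy
    have h2 := dtr_out θ.M N (pairBits (bits (dec (k + 1) y).1) (dec (k + 1) y).2)
    refine h2.mono ?_
    have h3 := lf_len (k + 1) y
    have h4 := θ.eval_L' n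
    calc θ.M.p.eval (pairBits (bits (dec (k + 1) y).1) (dec (k + 1) y).2).length ≤
          θ.M.p.eval (θ.L'.eval n) := eval_mono _ (by omega)
      _ ≤ t := by omega) (Finset.range (2 ^ (4 * u))) (fun i => blkJ N j (inp m j u b i)) (by
    intro i hi i' hi' hne
    apply blkJ_disj
    · rw [length_inp, length_inp]
    · intro h
      have h2 := cod_inj h
      have h3 := bitsOf_inj (hin i hi) (hin i' hi') h2
      exact hne (by omega)) (strsOf c)
    (fun i h => pairBits (inp m j u b i) h) (by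
    intro i _ h hh
    rw [length_pairBits, length_inp]
    obtain ⟨i, _, rfl⟩ := Finset.mem_image.1 hh
    rw [length_bitsOf]) r s (2 ^ u) (R0 u) hM2 (by
      rw [Finset.card_range]
      exact (num_R0 (by omega)).le) (by
      rw [Finset.card_range]
      exact num_rJ (by omega) hrr) (by
    intro i _
    rw [blkJ_card N j _ (by rw [length_inp]; exact hN)]
    exact Nat.mul_div_le _ _)
  have h1' : Ex unif (fun a : Fin N → Bool => if EvAC θ m j N u k b c a then (1 : ℝ) else 0) ≤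
      k * 2 ^ (2 * n + 1 + c + (2 * θ.r.eval n + 1) + k * (2 * θ.p.eval n + 1) + 2) *
        (12 * t * q) ^ (t + 1) + (Finset.range (2 ^ (4 * u))).card * ((r + 1) * (1 - q ^ k) ^ s) +
        (strsOf c).card * Real.exp (-((Finset.range (2 ^ (4 * u))).card /
          (8 * ((2 ^ u : ℕ) : ℝ) ^ 2))) := by
    refine le_trans (le_of_eq ?_) h1
    refine congrArg (Ex unif) (funext fun a => ?_)
    by_cases h : EvAC θ m j N u k b c a
    · have h' := h
      unfold EvAC at h'
      rw [if_pos h]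
      rw [if_pos (by convert h')]
    · have h' := h
      unfold EvAC at h'
      rw [if_neg h]
      rw [if_neg (by convert h')]
  refine h1'.trans ?_
  rw [Finset.card_range]
  have hqt : 12 * (t : ℝ) * q = 1 / 2 := by
    rw [hq]; field_simp; norm_num
  rw [hqt]
  have hTR : (8 : ℝ) ≤ 2 ^ u := by
    calc (8 : ℝ) = 2 ^ 3 := by norm_num
      _ ≤ 2 ^ u := pow_le_pow_right₀ (by norm_num) hu3
  -- the exponential of `-T`
  have hexpT : Real.exp (-(2 : ℝ) ^ u) ≤ (1 / 2) ^ 2 ^ u := by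
    have e1 : Real.exp (-(2 : ℝ) ^ u) = (Real.exp (-1)) ^ 2 ^ u := by
      rw [← Real.exp_nat_mul]; congr 1; push_cast; ring
    rw [e1]
    apply pow_le_pow_left₀ (Real.exp_pos _).le
    rw [Real.exp_neg, one_div]
    apply inv_anti₀ (by norm_num)
    have := Real.add_one_le_exp (1 : ℝ)
    linarith
  have hLpow : (1 : ℝ) ≤ 2 ^ (θ.L.eval n + 2) := one_le_pow₀ (by norm_num)
  -- first term
  have T1 : (k : ℝ) * 2 ^ (2 * n + 1 + c + (2 * θ.r.eval n + 1) + k * (2 * θ.p.eval n + 1) + 2) *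
      (1 / 2) ^ (t + 1) ≤ 2 ^ (θ.L.eval n + 2) * (k * (1 / 2) ^ 2 ^ u) := by
    have h3 : (2 : ℝ) ^ (2 * n + 1 + c + (2 * θ.r.eval n + 1) + k * (2 * θ.p.eval n + 1) + 2) ≤
        2 ^ (θ.L.eval n + 2) :=
      pow_le_pow_right₀ (by norm_num) (by omega)
    have h4 : ((1 : ℝ) / 2) ^ (t + 1) ≤ (1 / 2) ^ 2 ^ u :=
      pow_le_pow_of_le_one (by norm_num) (by norm_num) (by omega)
    calc _ ≤ (k : ℝ) * 2 ^ (θ.L.eval n + 2) * (1 / 2) ^ 2 ^ u := by gcongr
      _ = _ := by ring
  -- second term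
  have hxs : (2 : ℝ) ^ u ≤ q ^ k * s := by
    have hkey : 2 ^ ((5 + 2 * u) * k) * 2 ^ u ≤ s := by
      have h1 : 2 ^ j / 2 ^ (30 * u + 1) ≤ s := by
        apply Nat.div_le_div_left
        · rw [pow_succ]
          have := Nat.one_le_two_pow (n := 30 * u)
          omega
        · positivity
      refine le_trans ?_ h1
      have hk1 : k ≤ k * u := Nat.le_mul_of_pos_right k (by omega)
      have e1 : 40 * (k + 1) * u = 40 * (k * u) + 40 * u := by ring
      have e2 : (5 + 2 * u) * k = 5 * k + 2 * (k * u) := by ring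
      rw [Nat.pow_div (by omega) (by norm_num), ← pow_add]
      exact Nat.pow_le_pow_right (by norm_num) (by omega)
    have h1 : (2 : ℝ) ^ ((5 + 2 * u) * k) * 2 ^ u ≤ (s : ℝ) := by exact_mod_cast hkey
    have h2 : 1 ≤ q ^ k * 2 ^ ((5 + 2 * u) * k) := by
      rw [pow_mul (2 : ℝ) (5 + 2 * u) k, ← mul_pow]
      apply one_le_pow₀
      rw [hq, ht, pow_add, one_div, inv_mul_eq_div, le_div_iff₀ (by positivity), one_mul]
      push_cast
      have : (0 : ℝ) < 2 ^ (2 * u) := by positivity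
      nlinarith
    calc (2 : ℝ) ^ u = 1 * 2 ^ u := by ring
      _ ≤ (q ^ k * 2 ^ ((5 + 2 * u) * k)) * 2 ^ u := by gcongr
      _ = q ^ k * (2 ^ ((5 + 2 * u) * k) * 2 ^ u) := by ring
      _ ≤ q ^ k * s := by gcongr
  have hqk1 : q ^ k ≤ 1 := pow_le_one₀ hq0 (by linarith)
  have hexp : (1 - q ^ k) ^ s ≤ (1 / 2) ^ 2 ^ u := by
    calc (1 - q ^ k) ^ s ≤ (Real.exp (-(q ^ k))) ^ s := by
          apply pow_le_pow_left₀ (by linarith)
          have := Real.add_one_le_exp (-(q ^ k))
          linarith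
      _ = Real.exp (-(q ^ k * s)) := by rw [← Real.exp_nat_mul]; congr 1; ring
      _ ≤ Real.exp (-(2 : ℝ) ^ u) := by
          apply Real.exp_le_exp.2
          linarith
      _ ≤ _ := hexpT
  have T2 : ((2 ^ (4 * u) : ℕ) : ℝ) * ((r + 1) * (1 - q ^ k) ^ s) ≤
      2 ^ (θ.L.eval n + 2) * ((2 ^ (4 * u) * (2 ^ (30 * u) + 1)) * (1 / 2) ^ 2 ^ u) := by
    have h3 : ((2 ^ (4 * u) : ℕ) : ℝ) * ((r + 1) * (1 - q ^ k) ^ s) ≤
        1 * ((2 ^ (4 * u) * (2 ^ (30 * u) + 1)) * (1 / 2) ^ 2 ^ u) := by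
      rw [hr]
      push_cast
      rw [one_mul, mul_assoc]
      gcongr
    refine h3.trans ?_
    gcongr
  -- third term
  have T3 : ((strsOf c).card : ℝ) * Real.exp (-(((2 ^ (4 * u) : ℕ) : ℝ) /
      (8 * ((2 ^ u : ℕ) : ℝ) ^ 2))) ≤ 2 ^ (θ.L.eval n + 2) * (1 * (1 / 2) ^ 2 ^ u) := by
    have h5 : ((strsOf c).card : ℝ) ≤ 2 ^ (θ.L.eval n + 2) := by
      have h6 : (strsOf c).card ≤ 2 ^ (θ.L.eval n + 2) :=
        (card_strsOf c).trans (Nat.pow_le_pow_right (by norm_num) (by omega))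
      exact_mod_cast h6
    have h7 : Real.exp (-(((2 ^ (4 * u) : ℕ) : ℝ) / (8 * ((2 ^ u : ℕ) : ℝ) ^ 2))) ≤
        (1 / 2) ^ 2 ^ u := by
      refine le_trans ?_ hexpT
      apply Real.exp_le_exp.2
      push_cast
      have e1 : (2 : ℝ) ^ (4 * u) = (2 ^ u) ^ 2 * (2 ^ u) ^ 2 := by
        rw [← pow_mul, ← pow_add]; congr 1; ring
      rw [e1]
      have e2 : ((2 : ℝ) ^ u) ^ 2 * (2 ^ u) ^ 2 / (8 * (2 ^ u) ^ 2) = (2 ^ u) ^ 2 / 8 := by
        field_simp
      rw [e2]
      nlinarith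
    rw [one_mul]
    exact mul_le_mul h5 h7 (Real.exp_pos _).le (by positivity)
  refine (add_le_add (add_le_add T1 T2) T3).trans (le_of_eq ?_)
  ring

open Classical in
theorem evA_bound (θ : Par3) {m j N u k : ℕ} (hu3 : 3 ≤ u)
    (hP : θ.P.eval (j + 1 + m) ≤ 2 ^ u)
    (hu : 40 * (k + 1) * u ≤ j) (hm : 4 * u ≤ m)
    (hN : 2 ^ (j + 1 + m + j + 1) ≤ N + 1) :
    Ex unif (fun a : Fin N → Bool => if EvA θ m j N u k a then (1 : ℝ) else 0) ≤
      2 ^ m * bndJ k (θ.P.eval (j + 1 + m)) u := by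
  set n := j + 1 + m with hn
  set X : ℝ := (k + 1 + 2 ^ (4 * u) * (2 ^ (30 * u) + 1)) * (1 / 2) ^ 2 ^ u with hX
  have hX0 : 0 ≤ X := by rw [hX]; positivity
  have hU : Ex unif (fun a : Fin N → Bool => if EvA θ m j N u k a then (1 : ℝ) else 0) ≤
      ∑ b ∈ Finset.range (2 ^ (m - 4 * u)), ∑ c ∈ Finset.range (θ.q.eval n + 1),
        Ex unif (fun a : Fin N → Bool => if EvAC θ m j N u k b c a then (1 : ℝ) else 0) := by
    have e1 : ∀ b, ∑ c ∈ Finset.range (θ.q.eval n + 1),
        Ex unif (fun a : Fin N → Bool => if EvAC θ m j N u k b c a then (1 : ℝ) else 0) =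
        Ex unif (fun a : Fin N → Bool => ∑ c ∈ Finset.range (θ.q.eval n + 1),
          if EvAC θ m j N u k b c a then (1 : ℝ) else 0) := fun b => (Ex_sum _ _ _).symm
    rw [Finset.sum_congr rfl (fun b _ => e1 b), ← Ex_sum]
    apply Ex_mono unif_nonneg
    intro a
    by_cases hE : EvA θ m j N u k a
    · rw [if_pos hE]
      obtain ⟨b, hb, c, hc, hbc⟩ := hE
      have h2 : (1 : ℝ) ≤ ∑ c ∈ Finset.range (θ.q.eval n + 1),
          if EvAC θ m j N u k b c a then (1 : ℝ) else 0 := by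
        refine le_trans ?_ (Finset.single_le_sum (f := fun c =>
          if EvAC θ m j N u k b c a then (1 : ℝ) else 0) (fun c _ => by positivity)
          (Finset.mem_range.2 (Nat.lt_succ_of_le hc)))
        show 1 ≤ (if EvAC θ m j N u k b c a then (1:ℝ) else 0)
        rw [if_pos hbc]
      refine h2.trans (Finset.single_le_sum (f := fun b => ∑ c ∈ Finset.range (θ.q.eval n + 1),
          if EvAC θ m j N u k b c a then (1 : ℝ) else 0)
          (fun b _ => Finset.sum_nonneg fun c _ => by positivity) (Finset.mem_range.2 hb))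
    · rw [if_neg hE]
      exact Finset.sum_nonneg fun b _ => Finset.sum_nonneg fun c _ => by positivity
  refine hU.trans ?_
  have h1 : ∀ b ∈ Finset.range (2 ^ (m - 4 * u)), ∀ c ∈ Finset.range (θ.q.eval n + 1),
      Ex unif (fun a : Fin N → Bool => if EvAC θ m j N u k b c a then (1 : ℝ) else 0) ≤
        2 ^ (θ.L.eval n + 2) * X := by
    intro b hb c hc
    exact evAC_bound θ hu3 hP hu hm (Finset.mem_range.1 hb) hN
      (Nat.le_of_lt_succ (Finset.mem_range.1 hc))
  refine (Finset.sum_le_sum fun b hb => Finset.sum_le_sum fun c hc => h1 b hb c hc).trans ?_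
  rw [Finset.sum_const, Finset.sum_const, Finset.card_range, Finset.card_range, nsmul_eq_mul,
    nsmul_eq_mul]
  have hp1 : ((θ.q.eval n + 1 : ℕ) : ℝ) ≤ 2 ^ θ.q.eval n := by
    have : θ.q.eval n + 1 ≤ 2 ^ θ.q.eval n := Nat.lt_two_pow_self
    exact_mod_cast this
  have hE := θ.eval_P n
  have g5 : θ.q.eval n ≤ θ.L.eval n := by rw [θ.eval_L]; omega
  have k1 : (2:ℝ) ^ θ.q.eval n * 2 ^ (θ.L.eval n + 2) ≤ 2 ^ θ.P.eval n := by
    rw [← pow_add]
    exact pow_le_pow_right₀ (by norm_num) (by omega)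
  have k2 : ((2 ^ (m - 4 * u) : ℕ) : ℝ) ≤ 2 ^ m := by
    push_cast
    exact pow_le_pow_right₀ (by norm_num) (by omega)
  unfold bndJ
  rw [← hX]
  calc ((2 ^ (m - 4 * u) : ℕ) : ℝ) * (((θ.q.eval n + 1 : ℕ) : ℝ) *
        (2 ^ (θ.L.eval n + 2) * X)) ≤
      2 ^ m * (2 ^ θ.q.eval n * (2 ^ (θ.L.eval n + 2) * X)) := by gcongr
    _ = 2 ^ m * ((2 ^ θ.q.eval n * 2 ^ (θ.L.eval n + 2)) * X) := by ring
    _ ≤ 2 ^ m * (2 ^ θ.P.eval n * X) := by gcongr

end Pool.Agent.TH683.AL
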