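import Pool.Agent.TH683.AL.Defs
import Pool.Agent.TH683.CP.Sharp

/-!
# Parities with `κ log n` witness bits need `2 κ` alternations only
-/

set_option autoImplicit false

namespace Pool.Agent.TH683.AL

open Pool.Agent.NPC Pool.Agent.H620R2.Gauge Finset Pool.Agent.H943R3.PP
open Pool.Agent.TH683.CP N4

/-- the number of bits per round -/
def sb (z : List Bool) : ℕ := Nat.log 2 z.length

/-- the parity of the number of ones among the first `2 ^ s` bits -/
def odT (M : ℕ) (t : List Bool) : Bool := decide (((t.take M).filter (fun b => b)).length % 2 = 1)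

/-- the state of the game: the claimed parity, the chosen prefix, the last vector, whether it is the
turn of the universal player, whether the existential player has violated the rules -/
abbrev St : Type := Bool × List Bool × List Bool × Bool × Bool

/-- the address chosen by the universal player -/
def adr (s : ℕ) (t : List Bool) : List Bool := (t ++ List.replicate s false).take s

/-- one move -/
def stepG (z t : List Bool) (σ : St) : St :=
  if σ.2.2.2.1 = true then
    (σ.2.2.1.getD (valB (adr (sb z) t)) false, σ.2.1 ++ adr (sb z) t, [], false, σ.2.2.2.2)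
  else (σ.1, σ.2.1, t, true, σ.2.2.2.2 || !decide (odT (2 ^ sb z) t = σ.1))

/-- the state after the moves of the list -/
def stG (z : List Bool) (ws : List (List Bool)) : St :=
  ws.foldr (stepG z) (true, [], [], false, false)

/-- the question at the end -/
def Qg (y : List Bool × List (List Bool)) : List (List Bool) :=
  [y.1 ++ (stG y.1 y.2).2.1.take (CP.ones y.1)]

/-- the output -/
def Hg (y : List Bool × List (List Bool)) (ans : List Bool) : List Bool :=
  if (CP.ones y.1 ≤ y.2.length / 2 * sb y.1 ∧ (stG y.1 y.2).2.2.2.2 = false) ∧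
    (stG y.1 y.2).1 = (((stG y.1 y.2).2.1.drop (CP.ones y.1)).all (fun b => !b) && decide (ans = [true]))
  then [true] else []

/-- the input: the string and the list of moves -/
def inpG (y : List Bool) : List Bool × List (List Bool) :=
  ((unpair y).2, (unbits (List (List Bool)) (unpair y).1).getD [])

/-- the algorithm -/
def Vg (A : Oracle) (y : List Bool) : List Bool := Hg (inpG y) ((Qg (inpG y)).map A)

/-! ### The algorithm is a polynomial-time oracle algorithm -/

theorem size_sub_one (n : ℕ) : Nat.size n - 1 = Nat.log 2 n := by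
  rcases Nat.eq_zero_or_pos n with rfl | hn
  · simp
  · have h1 : Nat.size n ≤ Nat.log 2 n + 1 := by
      rw [Nat.size_le]
      exact Nat.lt_pow_succ_log_self (by norm_num) n
    have h2 : Nat.log 2 n < Nat.size n := by
      rw [Nat.lt_size]
      exact Nat.pow_log_le_self 2 (by omega)
    omega

theorem sb_le (z : List Bool) : sb z ≤ z.length := Nat.log_le_self 2 _

theorem pow_sb_le (z : List Bool) : 2 ^ sb z ≤ z.length + 1 := by
  unfold sb
  rcases Nat.eq_zero_or_pos z.length with h | h
  · rw [h]; simp
  · exact (Nat.pow_log_le_self 2 (by omega)).trans (Nat.le_succ _)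

theorem u_sb {α : Type} [TEnc α] {v : α → List Bool} (hv : Poly v) :
    UPoly (fun a => sb (v a)) := by
  have h1 : Poly (fun a => (Nat.bits (v a).length).length - 1) :=
    Poly.sub (Poly.length (Poly.natBits (Poly.length hv))) (NPC.Poly.const 1)
  have h2 : Poly (fun a => sb (v a)) := h1.congr fun a => by
    have h3 : (Nat.bits (v a).length).length = Nat.size (v a).length := by
      exact Nat.size_eq_bits_len _
    rw [h3, size_sub_one]
    rfl
  exact UPoly.of_le h2 (UPoly.length hv) fun a => sb_le _

theorem u_pow {α : Type} [TEnc α] {v : α → List Bool} (hv : Poly v) :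
    UPoly (fun a => 2 ^ sb (v a)) := by
  have h1 : Poly (fun a => 2 ^ sb (v a)) := (poly_pw (u_sb hv)).congr fun a => pw_eq _
  refine UPoly.of_le h1 (UPoly.length (Poly.cons (NPC.Poly.const true) hv)) fun a => ?_
  rw [List.length_cons]
  exact pow_sb_le _

theorem p_repl {α : Type} [TEnc α] {n : α → ℕ} (hn : UPoly n) :
    Poly (fun a => List.replicate (n a) false) :=
  (NPC.Poly.map (F := fun _ (_ : Unit) => false) hn (NPC.Poly.const false)).congr fun a => by
    rw [List.map_replicate]

theorem p_adr {α : Type} [TEnc α] {s : α → ℕ} {t : α → List Bool} (hs : UPoly s) (ht : Poly t) :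
    Poly (fun a => adr (s a) (t a)) := by
  unfold adr
  exact poly_take (Poly.append ht (p_repl hs)) hs

theorem p_odT {α : Type} [TEnc α] {M : α → ℕ} {t : α → List Bool} (hM : UPoly M) (ht : Poly t) :
    Poly (fun a => odT (M a) (t a)) := by
  unfold odT
  refine Poly.decide_eq (Poly.mod (Poly.length (Poly.filter (p := fun _ b => b)
    (poly_take ht hM) (Poly.snd Poly.id))) (NPC.Poly.const 2)) (NPC.Poly.const 1)

theorem p_stepG {α : Type} [TEnc α] {z t : α → List Bool} {σ : α → St} (hz : Poly z) (ht : Poly t)
    (hσ : Poly σ) : Poly (fun a => stepG (z a) (t a) (σ a)) := by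
  have hs := u_sb hz
  have hM := u_pow hz
  have ha := p_adr hs ht
  have hb : Poly (fun a => (σ a).1) := Poly.fst hσ
  have hp : Poly (fun a => (σ a).2.1) := Poly.fst (Poly.snd hσ)
  have hw : Poly (fun a => (σ a).2.2.1) := Poly.fst (Poly.snd (Poly.snd hσ))
  have hf : Poly (fun a => (σ a).2.2.2.1) := Poly.fst (Poly.snd (Poly.snd (Poly.snd hσ)))
  have hg : Poly (fun a => (σ a).2.2.2.2) := Poly.snd (Poly.snd (Poly.snd (Poly.snd hσ)))
  unfold stepG
  refine Poly.ite (Poly.decide_bool hf) ?_ ?_
  · exact Poly.pair (Poly.getD hw (Poly.valBits ha) (NPC.Poly.const false))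
      (Poly.pair (Poly.append hp ha) (Poly.pair (NPC.Poly.const _)
        (Poly.pair (NPC.Poly.const _) hg)))
  · exact Poly.pair hb (Poly.pair hp (Poly.pair ht (Poly.pair (NPC.Poly.const _)
      (Poly.or hg (Poly.not (Poly.decide_eq (p_odT hM ht) hb))))))

theorem adr_length (s : ℕ) (t : List Bool) : (adr s t).length = s := by
  unfold adr
  rw [List.length_take, List.length_append, List.length_replicate]
  omega

theorem stG_bound (z : List Bool) : ∀ ws : List (List Bool),
    (stG z ws).2.1.length ≤ sb z * ws.length ∧ sz (stG z ws).2.2.1 ≤ sz ws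
  | [] => by simp [stG]
  | t :: ws => by
    have ih := stG_bound z ws
    have h1 : stG z (t :: ws) = stepG z t (stG z ws) := rfl
    rw [h1]
    unfold stepG
    have h2 : sb z * (t :: ws).length = sb z * ws.length + sb z := by
      rw [List.length_cons]; ring
    have h3 : 0 < sz t := sz_pos t
    split_ifs
    · refine ⟨?_, ?_⟩
      · simp only [List.length_append, adr_length]
        omega
      · simp only [sz_list_nil, sz_list_cons]
        omega
    · refine ⟨?_, ?_⟩
      · simp only
        omega
      · simp only [sz_list_cons]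
        omega

end Pool.Agent.TH683.AL
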