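import Pool.Agent.TH683.AL.UpA

/-!
# Parities with `κ log n` witness bits need `2 κ` alternations only: the algorithm
-/

set_option autoImplicit false

namespace Pool.Agent.TH683.AL

open Pool.Agent.NPC Pool.Agent.H620R2.Gauge Finset Pool.Agent.H943R3.PP
open Pool.Agent.TH683.CP N4

theorem sz_sigma {b f g : Bool} {pr w : List Bool} {P Q : ℕ} (h1 : pr.length ≤ P)
    (h2 : sz w ≤ Q) : sz ((b, pr, w, f, g) : St) ≤ 4 * P + Q + 14 := by
  have e1 := sz_bool_le b
  have e2 := sz_bool_le f
  have e3 := sz_bool_le g
  have e4 := sz_listBool_le pr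
  rw [sz_pair, sz_pair, sz_pair, sz_pair]
  omega

theorem sz_stG_le (z : List Bool) (ws ws' : List (List Bool)) (h : sz ws' ≤ sz ws)
    (h' : ws'.length ≤ ws.length) :
    sz (stG z ws') ≤ 4 * (sz (z, ws) * sz (z, ws)) + sz (z, ws) + 14 := by
  obtain ⟨h1, h2⟩ := stG_bound z ws'
  have h4 := length_lt_sz ws
  have h5 := length_lt_sz z
  have h6 := sb_le z
  have h7 : sb z * ws'.length ≤ sz (z, ws) * sz (z, ws) := by
    rw [sz_pair]
    exact Nat.mul_le_mul (by omega) (by omega)
  have h8 : sz ws ≤ sz (z, ws) := by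
    rw [sz_pair]
    omega
  have h9 := sz_sigma (b := (stG z ws').1) (f := (stG z ws').2.2.2.1) (g := (stG z ws').2.2.2.2)
    (h1.trans h7) (h2.trans (h.trans h8))
  exact h9

theorem p_stG0 : Poly (fun y : List Bool × List (List Bool) => stG y.1 y.2) := by
  have h1 : Poly (fun p : (List Bool × List (List Bool)) × List Bool × St =>
      stepG p.1.1 p.2.1 p.2.2) :=
    p_stepG (Poly.fst (Poly.fst Poly.id)) (Poly.fst (Poly.snd Poly.id))
        (Poly.snd (Poly.snd Poly.id))
  have h2 : Poly (fun _ : List Bool × List (List Bool) => ((true, [], [], false, false) : St)) :=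
    NPC.Poly.const _
  have h3 : Poly (fun y : List Bool × List (List Bool) => y.2) := Poly.snd Poly.id
  exact Poly.foldr (l := fun y : List Bool × List (List Bool) => y.2)
      (s := fun _ => ((true, [], [], false, false) : St))
      (F := fun (y : List Bool × List (List Bool)) t σ => stepG y.1 t σ)
      h3 h2 h1 (4 * (Polynomial.X * Polynomial.X) + Polynomial.X + 14) (fun a k hk => by
        have h4 := sz_stG_le a.1 a.2 (a.2.drop k) (Poly.sz_drop_le _ _) (by
          rw [List.length_drop]; omega)
        simp only [Polynomial.eval_add, Polynomial.eval_mul, Polynomial.eval_X,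
          Polynomial.eval_ofNat]
        exact h4)

theorem p_stG {α : Type} [TEnc α] {z : α → List Bool} {ws : α → List (List Bool)} (hz : Poly z)
    (hws : Poly ws) : Poly (fun a => stG (z a) (ws a)) := by
  have h := Poly.comp (g := fun y : List Bool × List (List Bool) => stG y.1 y.2)
    (f := fun a => (z a, ws a)) p_stG0 (Poly.pair hz hws)
  exact h

theorem p_inpG : Poly inpG := by
  unfold inpG
  refine Poly.pair (Poly.snd poly_unpair) ?_
  refine (Poly.optCases (o := fun y : List Bool => unbits (List (List Bool)) (unpair y).1)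
    (g := fun _ => ([] : List (List Bool))) (h := fun _ b => b)
    (poly_unbits.comp (Poly.fst poly_unpair)) (NPC.Poly.const _) (Poly.snd Poly.id)).congr
      fun y => ?_
  cases unbits (List (List Bool)) (unpair y).1 <;> rfl

theorem p_Qg : Poly Qg := by
  unfold Qg
  have hst : Poly (fun y : List Bool × List (List Bool) => stG y.1 y.2) :=
    p_stG (Poly.fst Poly.id) (Poly.snd Poly.id)
  exact Poly.cons (Poly.append (Poly.fst Poly.id)
    (poly_take (Poly.fst (Poly.snd hst)) (u_ones (Poly.fst Poly.id)))) (NPC.Poly.const [])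

theorem p_Hg : Poly (fun p : (List Bool × List (List Bool)) × List Bool => Hg p.1 p.2) := by
  unfold Hg
  have hz : Poly (fun p : (List Bool × List (List Bool)) × List Bool => p.1.1) :=
    Poly.fst (Poly.fst Poly.id)
  have hws : Poly (fun p : (List Bool × List (List Bool)) × List Bool => p.1.2) :=
    Poly.snd (Poly.fst Poly.id)
  have hst : Poly (fun p : (List Bool × List (List Bool)) × List Bool => stG p.1.1 p.1.2) :=
    p_stG hz hws
  refine Poly.ite (Poly.decide_and (Poly.decide_and ?_ ?_) ?_) (NPC.Poly.const _)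
    (NPC.Poly.const _)
  · exact Poly.decide_le (u_ones hz).toPoly
      (Poly.mul (Poly.div (Poly.length hws) (NPC.Poly.const 2)) (u_sb hz).toPoly)
  · exact Poly.decide_eq (Poly.snd (Poly.snd (Poly.snd (Poly.snd hst)))) (NPC.Poly.const _)
  · refine Poly.decide_eq (Poly.fst hst) (Poly.and ?_ ?_)
    · exact Poly.all (p := fun _ b => !b) (poly_drop (Poly.fst (Poly.snd hst)) (u_ones hz))
        (Poly.not (Poly.snd Poly.id))
    · exact Poly.decide_eq (Poly.snd Poly.id) (NPC.Poly.const _)

theorem isFP_Vg (A : Oracle) : IsFP A (Vg A) := by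
  have h := IsFP.tt (A := A) (Q := fun y => Qg (inpG y))
    (H := fun p : List Bool × List Bool => Hg (inpG p.1) p.2) (p_Qg.comp p_inpG)
    (p_Hg.comp (Poly.pair (p_inpG.comp (Poly.fst Poly.id)) (Poly.snd Poly.id)))
  exact h

end Pool.Agent.TH683.AL
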