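import Pool.Agent.TH683.AL.UpB

/-!
# Parities with `κ log n` witness bits need `2 κ` alternations only: correctness
-/

set_option autoImplicit false

namespace Pool.Agent.TH683.AL

open Pool.Agent.NPC Pool.Agent.H620R2.Gauge Finset Pool.Agent.H943R3.PP
open Pool.Agent.TH683.CP N4

/-- the strings that are counted -/
def Fp (A : Oracle) (z l : List Bool) : Prop :=
  (l.drop (CP.ones z)).all (fun b => !b) = true ∧ A (z ++ l.take (CP.ones z)) = true

/-- the number of the continuations that are counted -/
noncomputable def cntG (A : Oracle) (z : List Bool) (d : ℕ) (pre : List Bool) : ℕ :=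
  Nat.card {v : Fin d → Bool // Fp A z (pre ++ List.ofFn v)}

theorem cntG_zero (A : Oracle) (z pre : List Bool) : Odd (cntG A z 0 pre) ↔ Fp A z pre := by
  unfold cntG
  by_cases h : Fp A z pre
  · have h1 : Nat.card {v : Fin 0 → Bool // Fp A z (pre ++ List.ofFn v)} = 1 := by
      rw [Nat.card_eq_one_iff_unique]
      exact ⟨⟨fun a b => Subtype.ext (Subsingleton.elim _ _)⟩,
        ⟨⟨fun i => i.elim0, by simpa using h⟩⟩⟩
    rw [h1]
    simp [h]
  · have h1 : Nat.card {v : Fin 0 → Bool // Fp A z (pre ++ List.ofFn v)} = 0 := by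
      rw [Nat.card_eq_zero]
      left
      exact ⟨fun v => h (by simpa using v.2)⟩
    rw [h1]
    simp [h]

theorem sum_fun_range (s : ℕ) (f : List Bool → ℕ) :
    ∑ u : Fin s → Bool, f (List.ofFn u) = ∑ v ∈ Finset.range (2 ^ s), f (bitsOf s v) := by
  rw [← Fin.sum_univ_eq_sum_range (fun j => f (bitsOf s j))]
  rw [← Equiv.sum_comp (eqv s)]
  refine Finset.sum_congr rfl fun u _ => ?_
  rw [eqv_val]
  have h : bitsOf s (valB (List.ofFn u)) = List.ofFn u := by
    have := bitsOf_valB (List.ofFn u)
    rwa [List.length_ofFn] at this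
  rw [h]

theorem cntG_split (A : Oracle) (z pre : List Bool) (s d : ℕ) :
    cntG A z (s + d) pre = ∑ v ∈ Finset.range (2 ^ s), cntG A z d (pre ++ bitsOf s v) := by
  rw [← sum_fun_range s (fun u => cntG A z d (pre ++ u))]
  have h := card_split s d (fun u v => Fp A z (pre ++ (u ++ v)))
  unfold cntG
  have h2 : Nat.card {w : Fin (s + d) → Bool // Fp A z (pre ++ List.ofFn w)} =
      Nat.card {w : Fin (s + d) → Bool // Fp A z (pre ++ ((List.ofFn w).take s ++
        (List.ofFn w).drop s))} := by
    apply Nat.card_congr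
    exact Equiv.subtypeEquivRight fun w => by rw [List.take_append_drop]
  rw [h2]
  refine h.trans ?_
  refine Finset.sum_congr rfl fun u _ => ?_
  apply Nat.card_congr
  exact Equiv.subtypeEquivRight fun v => by rw [List.append_assoc]

theorem card_getD (M : ℕ) : ∀ t : List Bool,
    ((Finset.range M).filter (fun v => t.getD v false = true)).card =
      ((t.take M).filter (fun b => b)).length := by
  induction M with
  | zero => intro t; simp
  | succ M ih =>
    intro t
    cases t with
    | nil => simp
    | cons b t =>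
      rw [Finset.card_filter, Finset.sum_range_succ', List.take_succ_cons]
      have h := ih t
      rw [Finset.card_filter] at h
      simp only [List.getD_cons_succ, List.getD_cons_zero]
      rw [h]
      cases b <;> simp

theorem odT_iff (s : ℕ) (t : List Bool) (c : ℕ → ℕ)
    (h : ∀ v < 2 ^ s, (t.getD v false = true ↔ Odd (c v))) :
    odT (2 ^ s) t = true ↔ Odd (∑ v ∈ Finset.range (2 ^ s), c v) := by
  rw [Finset.odd_sum_iff_odd_card_odd]
  have h1 : (Finset.range (2 ^ s)).filter (fun v => Odd (c v)) =
      (Finset.range (2 ^ s)).filter (fun v => t.getD v false = true) := by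
    apply Finset.filter_congr
    intro v hv
    rw [h v (Finset.mem_range.1 hv)]
  rw [h1, card_getD, Nat.odd_iff]
  unfold odT
  rw [decide_eq_true_eq]

theorem adr_bits (s v : ℕ) : adr s (bitsOf s v) = bitsOf s v := by
  unfold adr
  exact List.take_left' (length_bitsOf s v)

theorem bits_adr (s : ℕ) (t : List Bool) :
    bitsOf s (valB (adr s t)) = adr s t ∧ valB (adr s t) < 2 ^ s := by
  have h := adr_length s t
  constructor
  · have := bitsOf_valB (adr s t)
    rwa [h] at this
  · have := valB_lt (adr s t)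
    rwa [h] at this

theorem stG_two (z w w' : List Bool) (ws : List (List Bool)) (hf : (stG z ws).2.2.2.1 = false) :
    stG z (w' :: w :: ws) = (w.getD (valB (adr (sb z) w')) false,
      (stG z ws).2.1 ++ adr (sb z) w', [], false,
      (stG z ws).2.2.2.2 || !decide (odT (2 ^ sb z) w = (stG z ws).1)) := by
  have h1 : stG z (w' :: w :: ws) = stepG z w' (stepG z w (stG z ws)) := rfl
  have h2 : stepG z w (stG z ws) = ((stG z ws).1, (stG z ws).2.1, w, true,
      (stG z ws).2.2.2.2 || !decide (odT (2 ^ sb z) w = (stG z ws).1)) := by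
    unfold stepG
    rw [if_neg (by rw [hf]; simp)]
  rw [h1, h2]
  unfold stepG
  rw [if_pos rfl]

theorem acc_iff (A : Oracle) (z : List Bool) (ws : List (List Bool)) :
    Acc (Vg A) z ws ↔ (CP.ones z ≤ ws.length / 2 * sb z ∧ (stG z ws).2.2.2.2 = false) ∧
      ((stG z ws).1 = true ↔ Fp A z (stG z ws).2.1) := by
  unfold Acc Vg Hg Qg inpG
  simp only [unpair_pairBits, unbits_bits, Option.getD_some, List.map_cons, List.map_nil]
  have h1 : ((stG z ws).1 = (((stG z ws).2.1.drop (CP.ones z)).all (fun b => !b) &&
      decide ([A (z ++ (stG z ws).2.1.take (CP.ones z))] = [true]))) ↔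
      ((stG z ws).1 = true ↔ Fp A z (stG z ws).2.1) := by
    unfold Fp
    rw [Bool.eq_iff_iff, Bool.and_eq_true, decide_eq_true_eq]
    simp
  constructor
  · intro h
    by_contra hc
    rw [if_neg (by
      rintro ⟨h2, h3⟩
      exact hc ⟨h2, h1.1 h3⟩)] at h
    exact absurd h (by simp)
  · rintro ⟨h2, h3⟩
    rw [if_pos ⟨h2, h1.2 h3⟩]

theorem alt_game (A : Oracle) (z : List Bool) (m : ℕ) (hm : 2 ^ sb z ≤ m) :
    ∀ (i r : ℕ) (ws : List (List Bool)), ws.length = 2 * r → CP.ones z ≤ (r + i) * sb z →
      (stG z ws).2.2.2.1 = false →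
      (Alt m (Acc (Vg A) z) (2 * i) true ws ↔ (stG z ws).2.2.2.2 = false ∧
        ((stG z ws).1 = true ↔ Odd (cntG A z (i * sb z) (stG z ws).2.1))) := by
  intro i
  induction i with
  | zero =>
    intro r ws hr ho hf
    rw [Nat.mul_zero]
    simp only [Alt]
    rw [acc_iff, Nat.zero_mul, cntG_zero]
    have h1 : CP.ones z ≤ ws.length / 2 * sb z := by
      rw [hr, Nat.mul_div_cancel_left _ (by norm_num : 0 < 2)]
      simpa using ho
    constructor
    · rintro ⟨⟨_, h2⟩, h3⟩
      exact ⟨h2, h3⟩
    · rintro ⟨h2, h3⟩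
      exact ⟨⟨h1, h2⟩, h3⟩
  | succ i ih =>
    intro r ws hr ho hf
    have e1 : 2 * (i + 1) = 2 * i + 1 + 1 := by ring
    have e2 : (i + 1) * sb z = sb z + i * sb z := by ring
    rw [e1, e2, cntG_split]
    simp only [Alt]
    have key : ∀ w w' : List Bool, (Alt m (Acc (Vg A) z) (2 * i) true (w' :: w :: ws) ↔
        ((stG z ws).2.2.2.2 = false ∧ odT (2 ^ sb z) w = (stG z ws).1) ∧
        (w.getD (valB (adr (sb z) w')) false = true ↔
          Odd (cntG A z (i * sb z) ((stG z ws).2.1 ++ adr (sb z) w')))) := by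
      intro w w'
      have h2 := stG_two z w w' ws hf
      have h1 := ih (r + 1) (w' :: w :: ws) (by
        rw [List.length_cons, List.length_cons, hr]; ring) (by
        have : r + 1 + i = r + (i + 1) := by ring
        rwa [this]) (by rw [h2])
      rw [h1, h2]
      dsimp only
      rw [Bool.or_eq_false_iff, Bool.not_eq_false', decide_eq_true_eq]
    have hs : sb z < 2 ^ sb z := Nat.lt_two_pow_self
    constructor
    · rintro ⟨w, _, hw⟩
      have h3 := (key w []).1 (hw [] (by simp))
      refine ⟨h3.1.1, ?_⟩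
      rw [← h3.1.2]
      apply odT_iff
      intro v hv
      have h4 := ((key w (bitsOf (sb z) v)).1 (hw _ (by rw [length_bitsOf]; omega))).2
      rw [adr_bits, valB_bitsOf _ _ hv] at h4
      exact h4
    · rintro ⟨hg, hb⟩
      let W : List Bool := List.ofFn (fun v : Fin (2 ^ sb z) =>
        @decide (Odd (cntG A z (i * sb z) ((stG z ws).2.1 ++ bitsOf (sb z) v)))
          (Classical.propDecidable _))
      have hW : ∀ v < 2 ^ sb z, (W.getD v false = true ↔
          Odd (cntG A z (i * sb z) ((stG z ws).2.1 ++ bitsOf (sb z) v))) := by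
        intro v hv
        have h5 : W.length = 2 ^ sb z := List.length_ofFn
        rw [List.getD_eq_getElem _ _ (by rw [h5]; exact hv)]
        simp only [W, List.getElem_ofFn, decide_eq_true_eq]
      refine ⟨W, ?_, ?_⟩
      · have h5 : W.length = 2 ^ sb z := List.length_ofFn
        rw [h5]
        exact hm
      · intro w' _
        rw [key]
        obtain ⟨h6, h7⟩ := bits_adr (sb z) w'
        refine ⟨⟨hg, ?_⟩, ?_⟩
        · have h8 := odT_iff (sb z) W _ hW
          rw [Bool.eq_iff_iff, h8, hb]
        · have h9 := hW _ h7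
          rwa [h6] at h9

theorem alt_none (A : Oracle) (z : List Bool) (m : ℕ) :
    ∀ (i r : ℕ) (ws : List (List Bool)), ws.length = 2 * r → (r + i) * sb z < CP.ones z →
      ¬ Alt m (Acc (Vg A) z) (2 * i) true ws := by
  intro i
  induction i with
  | zero =>
    intro r ws hr ho h
    rw [Nat.mul_zero] at h
    simp only [Alt] at h
    rw [acc_iff] at h
    have h1 := h.1.1
    rw [hr, Nat.mul_div_cancel_left _ (by norm_num : 0 < 2)] at h1
    simp only [Nat.add_zero] at ho
    omega
  | succ i ih =>
    intro r ws hr ho h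
    have e1 : 2 * (i + 1) = 2 * i + 1 + 1 := by ring
    rw [e1] at h
    simp only [Alt] at h
    obtain ⟨w, _, hw⟩ := h
    refine ih (r + 1) ([] :: w :: ws) (by
        rw [List.length_cons, List.length_cons, hr]; ring) (by
        have : r + 1 + i = r + (i + 1) := by ring
        rwa [this]) (hw [] (by simp))

theorem cntG_nil (A : Oracle) (z : List Bool) (d : ℕ) (h : CP.ones z ≤ d) :
    cntG A z d [] = cf A z := by
  obtain ⟨e, rfl⟩ : ∃ e, d = CP.ones z + e := ⟨d - CP.ones z, by omega⟩
  unfold cntG
  have h1 := card_split (CP.ones z) e (fun u v => v.all (fun b => !b) = true ∧ A (z ++ u) = true)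
  have h2 : Nat.card {w : Fin (CP.ones z + e) → Bool // Fp A z ([] ++ List.ofFn w)} =
      Nat.card {w : Fin (CP.ones z + e) → Bool //
        ((List.ofFn w).drop (CP.ones z)).all (fun b => !b) = true ∧
          A (z ++ (List.ofFn w).take (CP.ones z)) = true} := by
    apply Nat.card_congr
    exact Equiv.subtypeEquivRight fun w => Iff.rfl
  rw [h2]
  refine h1.trans ?_
  have h3 : ∀ u : Fin (CP.ones z) → Bool, Nat.card {v : Fin e → Bool //
      (List.ofFn v).all (fun b => !b) = true ∧ A (z ++ List.ofFn u) = true} =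
      if A (z ++ List.ofFn u) = true then 1 else 0 := by
    intro u
    split_ifs with h
    · rw [← card_all_false e]
      apply Nat.card_congr
      exact Equiv.subtypeEquivRight fun v => by simp [h]
    · rw [Nat.card_eq_zero]
      left
      exact ⟨fun v => h v.2.2⟩
  rw [Finset.sum_congr rfl fun u _ => h3 u]
  unfold cf
  rw [Nat.card_eq_fintype_card, Fintype.card_subtype, Finset.card_filter]

/-- **The upper bound**: parities with `κ(n) log n` witness bits need `2 κ(n)` alternations only. -/
theorem isAlt_parL (A : Oracle) (κ : ℕ → ℕ) : IsAlt A (fun n => 2 * κ n) (parL A κ) := by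
  refine ⟨Vg A, Polynomial.X + 1, isFP_Vg A, fun z => ?_⟩
  have hp : (Polynomial.X + 1 : Polynomial ℕ).eval z.length = z.length + 1 := by simp
  rw [hp]
  have hm := pow_sb_le z
  by_cases h : CP.ones z ≤ κ z.length * sb z
  · have h1 := alt_game A z (z.length + 1) hm (κ z.length) 0 [] rfl (by simpa using h) rfl
    rw [h1]
    have h2 : (stG z []) = (true, [], [], false, false) := rfl
    rw [h2]
    dsimp only
    rw [cntG_nil A z _ h]
    unfold parL
    rw [Set.mem_ofPred_eq]
    constructor
    · rintro ⟨_, h3⟩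
      exact ⟨rfl, fun _ => h3, fun _ => rfl⟩
    · rintro ⟨_, h3⟩
      exact ⟨h, h3.1 rfl⟩
  · have h1 := alt_none A z (z.length + 1) (κ z.length) 0 [] rfl (by
      rw [Nat.zero_add]; omega)
    constructor
    · intro h2
      exact absurd h2.1 h
    · intro h2
      exact absurd h2 h1

end Pool.Agent.TH683.AL
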